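import Pool.Agent.Run7.h378.PS.Stm

set_option autoImplicit false

/-! Project PS: Robinson's form is not a sum of squares. -/

namespace Pool.Agent.Run7.h637.PS

open MvPolynomial Run7.h378.PS

theorem RR_deg : (2 * RR).totalDegree ≤ 2 * 3 := by
  have hX : ∀ (i : Fin 3) (n : ℕ), (X i ^ n : MvPolynomial (Fin 3) ℝ).IsHomogeneous n := by
    intro i n
    have h := (isHomogeneous_X ℝ i).pow n
    rwa [one_mul] at h
  have hC : ∀ r : ℝ, (C r : MvPolynomial (Fin 3) ℝ).IsHomogeneous 0 := fun r =>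
    isHomogeneous_C (Fin 3) r
  have e : 2 * RR = C 2 * (X 0 ^ 6 + X 1 ^ 6 + X 2 ^ 6 - (X 0 ^ 4 * X 1 ^ 2 + X 0 ^ 4 * X 2 ^ 2 +
      X 1 ^ 4 * X 0 ^ 2 + X 1 ^ 4 * X 2 ^ 2 + X 2 ^ 4 * X 0 ^ 2 + X 2 ^ 4 * X 1 ^ 2) +
      C 3 * X 0 ^ 2 * X 1 ^ 2 * X 2 ^ 2) := by
    unfold RR
    rw [map_ofNat, map_ofNat]
  have h2 : ∀ (i j : Fin 3), (X i ^ 4 * X j ^ 2 : MvPolynomial (Fin 3) ℝ).IsHomogeneous 6 :=
    fun i j => (hX i 4).mul (hX j 2)
  have h3 : (C 3 * X 0 ^ 2 * X 1 ^ 2 * X 2 ^ 2 : MvPolynomial (Fin 3) ℝ).IsHomogeneous 6 :=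
    (((hC 3).mul (hX 0 2)).mul (hX 1 2)).mul (hX 2 2)
  have h : (2 * RR).IsHomogeneous 6 := by
    rw [e]
    have h4 := (hC 2).mul ((((((hX 0 6).add (hX 1 6)).add (hX 2 6)).sub
      ((((((h2 0 1).add (h2 0 2)).add (h2 1 0)).add (h2 1 2)).add (h2 2 0)).add (h2 2 1)))).add h3)
    rwa [zero_add] at h4
  exact h.totalDegree_le

theorem second_diff (q : MvPolynomial (Fin 3) ℝ) (hq : q.totalDegree ≤ 3) :
    eval ![-1, -1, 1] q - 2 * eval ![-1, 0, 1] q + eval ![-1, 1, 1] q - 2 * eval ![0, -1, 1] q +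
      4 * eval ![0, 0, 1] q - 2 * eval ![0, 1, 1] q + eval ![1, -1, 1] q -
      2 * eval ![1, 0, 1] q + eval ![1, 1, 1] q = 0 := by
  have hev : ∀ a b : ℝ, eval ![a, b, 1] q = ∑ d ∈ q.support, q.coeff d * (a ^ d 0 * b ^ d 1) := by
    intro a b
    rw [eval_eq']
    apply Finset.sum_congr rfl
    intro d _
    rw [Fin.prod_univ_three]
    simp
  simp only [hev, Finset.mul_sum]
  rw [← Finset.sum_sub_distrib, ← Finset.sum_add_distrib, ← Finset.sum_sub_distrib,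
    ← Finset.sum_add_distrib, ← Finset.sum_sub_distrib, ← Finset.sum_add_distrib,
    ← Finset.sum_sub_distrib, ← Finset.sum_add_distrib]
  apply Finset.sum_eq_zero
  intro d hd
  have hdeg : d 0 + d 1 ≤ 3 := by
    have h := (le_totalDegree hd).trans hq
    rw [Finsupp.sum_fintype _ _ (fun _ => rfl), Fin.sum_univ_three] at h
    omega
  have key : ∀ k l : ℕ, k + l ≤ 3 → (((-1 : ℝ) ^ k - 2 * 0 ^ k + 1 ^ k) *
      ((-1) ^ l - 2 * 0 ^ l + 1 ^ l)) = 0 := by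
    intro k l hkl
    have h1 : k ≤ 3 := by omega
    have h2 : l ≤ 3 := by omega
    interval_cases k <;> interval_cases l <;> first | omega | norm_num
  have h := key (d 0) (d 1) hdeg
  linear_combination (q.coeff d) * h

theorem t_G : S_G := by
  intro hD ⟨r, q, hq⟩
  have hdeg : ∀ i, (q i).totalDegree ≤ 3 := by
    apply hD 3 r 3 q
    rw [← hq]
    exact RR_deg
  have hev : ∀ x : Fin 3 → ℝ, eval x (2 * RR) = ∑ i, eval x (q i) ^ 2 := by
    intro x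
    rw [hq, map_sum]
    simp only [map_pow]
  have hval : ∀ a b : ℝ, eval ![a, b, 1] (2 * RR) = 2 * (a ^ 6 + b ^ 6 + 1 -
      (a ^ 4 * b ^ 2 + a ^ 4 + b ^ 4 * a ^ 2 + b ^ 4 + a ^ 2 + b ^ 2) + 3 * a ^ 2 * b ^ 2) := by
    intro a b
    unfold RR
    simp only [map_mul, map_add, map_sub, map_pow, eval_X, map_ofNat]
    simp
  have hz : ∀ a b : ℝ, a ^ 6 + b ^ 6 + 1 -
      (a ^ 4 * b ^ 2 + a ^ 4 + b ^ 4 * a ^ 2 + b ^ 4 + a ^ 2 + b ^ 2) + 3 * a ^ 2 * b ^ 2 = 0 →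
      ∀ i, eval ![a, b, 1] (q i) = 0 := by
    intro a b h i
    have h1 := hev ![a, b, 1]
    rw [hval, h, mul_zero] at h1
    have h2 := (Finset.sum_eq_zero_iff_of_nonneg (fun j _ => sq_nonneg _)).1 h1.symm i
      (Finset.mem_univ i)
    exact pow_eq_zero_iff (two_ne_zero) |>.1 h2
  have h0 : ∀ i, eval ![0, 0, 1] (q i) = 0 := by
    intro i
    have h := second_diff (q i) (hdeg i)
    rw [hz (-1) (-1) (by norm_num) i, hz (-1) 0 (by norm_num) i, hz (-1) 1 (by norm_num) i,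
      hz 0 (-1) (by norm_num) i, hz 0 1 (by norm_num) i, hz 1 (-1) (by norm_num) i,
      hz 1 0 (by norm_num) i, hz 1 1 (by norm_num) i] at h
    linarith
  have h1 := hev ![0, 0, 1]
  rw [hval] at h1
  simp only [h0] at h1
  norm_num at h1

end Pool.Agent.Run7.h637.PS
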