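import Pool.Agent.Run7.h378.PS.Stm

set_option autoImplicit false

/-! Project PS: positivity on the unit sphere of `ℓ²`. -/

namespace Pool.Agent.Run7.h637.PS

open MvPolynomial Filter Topology Run7.h378.PS

theorem t_PO : S_PO := by
  intro hH x hx h1
  have hle : ∀ i, x i ^ 2 ≤ 1 := fun i => by
    rw [← h1]
    exact hx.le_tsum i (fun j _ => sq_nonneg _)
  have hs : ∀ k, 1 ≤ k → Summable (fun i => x i ^ (2 * k)) := by
    intro k hk
    refine Summable.of_nonneg_of_le (fun i => ?_) (fun i => ?_) hx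
    · rw [pow_mul]
      positivity
    · rw [pow_mul]
      exact pow_le_of_le_one (sq_nonneg _) (hle i) (by omega)
  have hT : ∀ k, 1 ≤ k → Tendsto (fun n => ∑ i ∈ Finset.range n, (x i ^ 2) ^ k) atTop
      (𝓝 (∑' i, x i ^ (2 * k))) := by
    intro k hk
    have := (hs k hk).hasSum.tendsto_sum_nat
    simpa only [pow_mul] using this
  have h4 : Tendsto (fun n => ∑ i ∈ Finset.range n, (x i ^ 2) ^ 2) atTop
      (𝓝 (∑' i, x i ^ 4)) := hT 2 (by norm_num)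
  have h6 : Tendsto (fun n => ∑ i ∈ Finset.range n, (x i ^ 2) ^ 3) atTop
      (𝓝 (∑' i, x i ^ 6)) := hT 3 (by norm_num)
  have h8 : Tendsto (fun n => ∑ i ∈ Finset.range n, (x i ^ 2) ^ 4) atTop
      (𝓝 (∑' i, x i ^ 8)) := hT 4 (by norm_num)
  have h10 : Tendsto (fun n => ∑ i ∈ Finset.range n, (x i ^ 2) ^ 5) atTop
      (𝓝 (∑' i, x i ^ 10)) := hT 5 (by norm_num)
  have h12 : Tendsto (fun n => ∑ i ∈ Finset.range n, (x i ^ 2) ^ 6) atTop
      (𝓝 (∑' i, x i ^ 12)) := hT 6 (by norm_num)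
  have hlim : Tendsto (fun n => hh (∑ i ∈ Finset.range n, (x i ^ 2) ^ 2)
      (∑ i ∈ Finset.range n, (x i ^ 2) ^ 3) (∑ i ∈ Finset.range n, (x i ^ 2) ^ 4)
      (∑ i ∈ Finset.range n, (x i ^ 2) ^ 5) (∑ i ∈ Finset.range n, (x i ^ 2) ^ 6)) atTop
      (𝓝 (hh (∑' i, x i ^ 4) (∑' i, x i ^ 6) (∑' i, x i ^ 8) (∑' i, x i ^ 10)
        (∑' i, x i ^ 12))) := by
    unfold hh
    exact (((((h4.pow 2).mul h10).add (h6.pow 3)).sub
      (((tendsto_const_nhds.mul h4).mul h6).mul h8)).add (h8.mul h10)).sub (h6.mul h12)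
  have hpos : 0 ≤ hh (∑' i, x i ^ 4) (∑' i, x i ^ 6) (∑' i, x i ^ 8) (∑' i, x i ^ 10)
      (∑' i, x i ^ 12) :=
    ge_of_tendsto' hlim fun n => hH (Finset.range n) (fun i => x i ^ 2) fun i => sq_nonneg _
  obtain ⟨i, hi⟩ : ∃ i, x i ≠ 0 := by
    by_contra hcon
    push Not at hcon
    simp [hcon] at h1
  have h20 : 0 < ∑' i, x i ^ 20 := by
    refine (hs 10 (by norm_num)).tsum_pos (fun j => ?_) i ?_
    · show 0 ≤ x j ^ (2 * 10)
      rw [pow_mul]
      positivity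
    · show 0 < x i ^ (2 * 10)
      rw [pow_mul]
      positivity
  have hval : val gg x = (∑' i, x i ^ 2) * hh (∑' i, x i ^ 4) (∑' i, x i ^ 6) (∑' i, x i ^ 8)
      (∑' i, x i ^ 10) (∑' i, x i ^ 12) + ∑' i, x i ^ 20 := by
    unfold val gg hh
    simp only [map_add, map_mul, map_sub, map_pow, eval_X, map_ofNat]
  rw [hval, h1, one_mul]
  linarith

end Pool.Agent.Run7.h637.PS
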